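import Pool.Agent.Helper662.OddGen

set_option autoImplicit false

namespace Pool.Agent.Results.MP_6c8b06_co.AllOddDimensions

/-- For every odd d > 2 (prime or not) and every m > 0, the complete graph on m vertices has its
edges partitioned into copies of the d-dimensional cube exactly when m is 1 modulo d * 2^d, or
2^d divides m and m is 1 modulo d. -/
theorem result :
    ∀ d : ℕ, Odd d → 2 < d → ∀ m : ℕ, 0 < m →
      ((∃ k : ℕ, ∃ φ : Fin k → (Fin d → Bool) → Fin m,
          (∀ i, Function.Injective (φ i)) ∧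
          ∀ u v : Fin m, u ≠ v →
            ∃! i : Fin k, ∃ x y : Fin d → Bool,
              hammingDist x y = 1 ∧ φ i x = u ∧ φ i y = v) ↔
        (m ≡ 1 [MOD d * 2 ^ d] ∨ (2 ^ d ∣ m ∧ m ≡ 1 [MOD d]))) := by
  intro d hd hd2 m hm
  rw [Nat.odd_iff] at hd
  constructor
  · rintro ⟨k, φ, hinj, hcov⟩
    exact Pool.Agent.Helper662.onlyIfOdd hd hm φ hinj hcov
  · intro h
    exact Pool.Agent.Helper662.ifPartOdd hd hd2 hm h

end Pool.Agent.Results.MP_6c8b06_co.AllOddDimensions
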